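import Mathlib

set_option autoImplicit false

/-! A kernel-friendly checker for branching certificates: every set `T` of at most six edges
(numbered by `0, …, 75`) leaves one of the dominating sets of a table intact. -/

namespace Pool.Agent.H81.Bond

/-- forces the evaluation of a natural number argument -/
noncomputable def fc {α : Type} (f : ℕ → α) (n : ℕ) : α :=
  Nat.rec (f 0) (fun a _ => f (Nat.succ a)) n

theorem fc_eq {α : Type} (f : ℕ → α) (n : ℕ) : fc f n = f n := by
  cases n <;> rfl

/-- binary tree of pairs (dominating set, list of edge masks whose deletion spoils it) -/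
inductive BT where
  | leaf (D : ℕ) (l : List ℕ) : BT
  | node (l r : BT) : BT

noncomputable def BT.get (t : BT) : ℕ → List ℕ :=
  BT.rec (motive := fun _ => ℕ → List ℕ) (fun _ l _ => l)
    (fun _ _ ihl ihr i => Bool.rec (ihr (Nat.div i 2)) (ihl (Nat.div i 2))
      (Nat.beq (Nat.mod i 2) 0)) t

noncomputable def BT.all (P : ℕ → List ℕ → Bool) (t : BT) : Bool :=
  BT.rec (motive := fun _ => Bool) (fun D l => P D l)
    (fun _ _ ihl ihr => Bool.rec false ihr ihl) t

theorem BT.all_get (P : ℕ → List ℕ → Bool) (t : BT) (h : t.all P = true) (i : ℕ) :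
    ∃ D, P D (t.get i) = true := by
  induction t generalizing i with
  | leaf D l => exact ⟨D, h⟩
  | node l r ihl ihr =>
    have h1 : (Bool.rec false (r.all P) (l.all P) : Bool) = true := h
    have hl : l.all P = true := by
      cases hh : l.all P
      · rw [hh] at h1; exact h1
      · rfl
    rw [hl] at h1
    change ∃ D, P D (Bool.rec (r.get (Nat.div i 2)) (l.get (Nat.div i 2))
      (Nat.beq (Nat.mod i 2) 0)) = true
    cases Nat.beq (Nat.mod i 2) 0
    · exact ihr h1 _
    · exact ihl hl _

/-- `x` is a power of two -/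
noncomputable def sg (x : ℕ) : Bool := Nat.beq (Nat.pow 2 (Nat.log2 x)) x

/-- clear the highest bit -/
noncomputable def clr (x : ℕ) : ℕ := Nat.xor x (Nat.pow 2 (Nat.log2 x))

/-- entry of the table of simple dominating sets: `0` if `X` meets one of the edges that lead
to the set, otherwise `1 +` the mask of the critical edges -/
noncomputable def kU (TU X d : ℕ) : ℕ :=
  fc (fun w => Bool.rec 0 (Nat.succ (Nat.shiftRight w 76)) (Nat.beq (Nat.land w X) 0))
    (Nat.mod (Nat.shiftRight TU (Nat.mul 152 d)) 5708990770823839524233143877797980545530986496)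

/-- `0` if a mask of the list lies in `X`, otherwise `1 +` the union of `K` and all masks with one
element outside `X` -/
noncomputable def kG (X : ℕ) (qs : List ℕ) : ℕ → ℕ :=
  List.rec (motive := fun _ => ℕ → ℕ) (fun K => Nat.succ K)
    (fun q _ ih K =>
      fc (fun x => Bool.rec (Bool.rec (ih K) (ih (Nat.lor K x)) (sg x)) 0 (Nat.beq x 0))
        (Nat.xor q (Nat.land q X))) qs

noncomputable def K1 (TU : ℕ) (tab : BT) (X d : ℕ) : ℕ :=
  Bool.rec (kG X (tab.get (Nat.sub d 512)) 0) (kU TU X d) (Nat.ble d 511)

noncomputable def one (TU : ℕ) (tab : BT) (X : ℕ) (fuel : ℕ) : ℕ → ℕ → Option ℕ :=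
  Nat.rec (motive := fun _ => ℕ → ℕ → Option ℕ) (fun _ _ => none)
    (fun _ ih I s => Bool.rec
      (Nat.rec none (fun K _ => ih (Nat.land I K) (Nat.div s 1024))
        (K1 TU tab X (Nat.mod s 1024)))
      (some s) (Nat.beq I 0)) fuel

noncomputable def go0 (TU : ℕ) (tab : BT) (X _F s : ℕ) : Option ℕ :=
  Nat.rec none (fun _ _ => some (Nat.div s 1024)) (K1 TU tab X (Nat.mod s 1024))

noncomputable def go1 (TU : ℕ) (tab : BT) (X F s : ℕ) : Option ℕ :=
  Nat.rec none (fun K _ => one TU tab X 20 (Nat.xor (Nat.lor K F) F) (Nat.div s 1024))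
    (K1 TU tab X (Nat.mod s 1024))

noncomputable def node {σ : Type} (g1 g2 g3 : ℕ → ℕ → σ → Option σ) (X : ℕ) (qs : List ℕ) :
    ℕ → σ → Option σ :=
  List.rec (motive := fun _ => ℕ → σ → Option σ) (fun _ s => some s)
    (fun q _ ih F s =>
      fc (fun x =>
        Bool.rec
          (Bool.rec
            (ih F s)
            (Bool.rec
              (Bool.rec
                (Option.rec none (fun s' => ih F s') (fc (fun X' => g3 X' F s) (Nat.lor X x)))
                (Option.rec none (fun s' => ih F s') (fc (fun X' => g2 X' F s) (Nat.lor X x)))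
                (sg (clr x)))
              (Option.rec none (fun s' => fc (fun F' => ih F' s') (Nat.lor F x))
                (fc (fun X' => g1 X' F s) (Nat.lor X x)))
              (sg x))
            (Nat.beq (Nat.land x F) 0))
          none
          (Nat.beq x 0))
        (Nat.xor q (Nat.land q X))) qs

noncomputable def go2 (TU : ℕ) (tab : BT) (X F s : ℕ) : Option ℕ :=
  node (go1 TU tab) (go0 TU tab) (fun _ _ s => some s) X (tab.get (Nat.mod s 1024)) F
    (Nat.div s 1024)

noncomputable def go3 (TU : ℕ) (tab : BT) (X F s : ℕ) : Option ℕ :=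
  node (go2 TU tab) (go1 TU tab) (go0 TU tab) X (tab.get (Nat.mod s 1024)) F (Nat.div s 1024)

noncomputable def go4 (TU : ℕ) (tab : BT) (X F s : ℕ) : Option ℕ :=
  node (go3 TU tab) (go2 TU tab) (go1 TU tab) X (tab.get (Nat.mod s 1024)) F (Nat.div s 1024)

noncomputable def lift (g : ℕ → ℕ → ℕ → Option ℕ) (X F : ℕ) (L : List ℕ) : Option (List ℕ) :=
  List.rec none (fun h t _ => Option.rec none (fun _ => some t) (g X F h)) L

noncomputable def up (tab : BT) (g1 g2 g3 : ℕ → ℕ → List ℕ → Option (List ℕ)) (X F : ℕ)
    (L : List ℕ) : Option (List ℕ) :=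
  List.rec none (fun h t _ => node g1 g2 g3 X (tab.get h) F t) L

noncomputable def goL2 (TU : ℕ) (tab : BT) := lift (go2 TU tab)
noncomputable def goL3 (TU : ℕ) (tab : BT) := lift (go3 TU tab)
noncomputable def goL4 (TU : ℕ) (tab : BT) := lift (go4 TU tab)
noncomputable def goL5 (TU : ℕ) (tab : BT) := up tab (goL4 TU tab) (goL3 TU tab) (goL2 TU tab)
noncomputable def goL6 (TU : ℕ) (tab : BT) := up tab (goL5 TU tab) (goL4 TU tab) (goL3 TU tab)

noncomputable def isS {σ : Type} (o : Option σ) : Bool := Option.rec false (fun _ => true) o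

theorem isS_iff {σ : Type} (o : Option σ) (h : isS o = true) : ∃ s, o = some s := by
  cases o with
  | none => exact absurd h Bool.false_ne_true
  | some s => exact ⟨s, rfl⟩

end Pool.Agent.H81.Bond
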