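import Pool.Agent.H81.Bond.Surv

set_option autoImplicit false
set_option maxRecDepth 100000

/-! A straight line drawing of the graph (after W738/Bond/Planar.lean of the library, which treats
another graph). -/

namespace Pool.Agent.H81.Bond.Draw

open Pool.Agent.W595.Bond (gr coord)
open Pool.Agent.H81.Bond (EL)

def X (u : Fin 28) : ℤ := (coord u).1
def Y (u : Fin 28) : ℤ := (coord u).2

/-- linear functional -/
def lf (al be : ℤ) (w : Fin 28) : ℤ := al * X w + be * Y w

def sepF (al be c : ℤ) (u v x y : Fin 28) : Bool :=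
  decide (lf al be u ≤ c) && decide (lf al be v ≤ c) && decide (c ≤ lf al be x) &&
    decide (c ≤ lf al be y) && decide (lf al be u + lf al be v < lf al be x + lf al be y)

def sepW (al be : ℤ) (w u v x y : Fin 28) : Bool := sepF al be (lf al be w) u v x y

def sep (u v x y : Fin 28) : Bool :=
  sepW (-(Y v - Y u)) (X v - X u) u u v x y || sepW (Y v - Y u) (-(X v - X u)) u u v x y ||
  sepW (-(Y y - Y x)) (X y - X x) x u v x y || sepW (Y y - Y x) (-(X y - X x)) x u v x y ||
  sepW (X v - X u) (Y v - Y u) v u v x y || sepW (-(X v - X u)) (-(Y v - Y u)) u u v x y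

def allE : List (Fin 28 × Fin 28) := EL ++ EL.map Prod.swap

theorem chk1 : (allE.all fun e => allE.all fun f =>
    (e == f || e == (f.2, f.1) || sep e.1 e.2 f.1 f.2)) = true := by decide +kernel

theorem chk2 : (allE.all fun e => (List.finRange 28).all fun w => sep e.1 e.2 w w) = true := by
  decide +kernel

theorem chk3 : ∀ u v : Fin 28, X u = X v → Y u = Y v → u = v := by decide +kernel

theorem mem_allE : ∀ (u v : Fin 28) (_h : gr.Adj u v), (u, v) ∈ allE := by
  decide +kernel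

/-- the points -/
noncomputable def pt (u : Fin 28) : ℝ × ℝ := ((X u : ℝ), (Y u : ℝ))

/-- the segments -/
noncomputable def seg (u v : Fin 28) : Path (pt u) (pt v) where
  toFun t := ((1 - (t : ℝ)) * (X u : ℝ) + (t : ℝ) * (X v : ℝ),
    (1 - (t : ℝ)) * (Y u : ℝ) + (t : ℝ) * (Y v : ℝ))
  continuous_toFun := by fun_prop
  source' := by simp [pt]
  target' := by simp [pt]

theorem seg_apply (u v : Fin 28) (t : unitInterval) : seg u v t =
    ((1 - (t : ℝ)) * (X u : ℝ) + (t : ℝ) * (X v : ℝ),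
      (1 - (t : ℝ)) * (Y u : ℝ) + (t : ℝ) * (Y v : ℝ)) := rfl

theorem sepF_ne (al be c : ℤ) (u v x y : Fin 28) (h : sepF al be c u v x y = true) (s t : ℝ)
    (hs : 0 < s) (hs1 : s < 1) (ht : 0 < t) (ht1 : t < 1)
    (e1 : (1 - s) * (X u : ℝ) + s * (X v : ℝ) = (1 - t) * (X x : ℝ) + t * (X y : ℝ))
    (e2 : (1 - s) * (Y u : ℝ) + s * (Y v : ℝ) = (1 - t) * (Y x : ℝ) + t * (Y y : ℝ)) : False := by
  unfold sepF at h
  simp only [Bool.and_eq_true, decide_eq_true_eq] at h
  obtain ⟨⟨⟨⟨h1, h2⟩, h3⟩, h4⟩, h5⟩ := h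
  unfold lf at h1 h2 h3 h4 h5
  have g1 : (al : ℝ) * X u + be * Y u ≤ c := by exact_mod_cast h1
  have g2 : (al : ℝ) * X v + be * Y v ≤ c := by exact_mod_cast h2
  have g3 : (c : ℝ) ≤ (al : ℝ) * X x + be * Y x := by exact_mod_cast h3
  have g4 : (c : ℝ) ≤ (al : ℝ) * X y + be * Y y := by exact_mod_cast h4
  have g5 : (al : ℝ) * X u + be * Y u + ((al : ℝ) * X v + be * Y v) <
    (al : ℝ) * X x + be * Y x + ((al : ℝ) * X y + be * Y y) := by exact_mod_cast h5
  set A : ℝ := (al : ℝ) * X u + be * Y u with hA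
  set B : ℝ := (al : ℝ) * X v + be * Y v with hB
  set C : ℝ := (al : ℝ) * X x + be * Y x with hC
  set D : ℝ := (al : ℝ) * X y + be * Y y with hD
  have e3 : (1 - s) * A + s * B = (1 - t) * C + t * D := by
    rw [hA, hB, hC, hD]
    linear_combination (al : ℝ) * e1 + (be : ℝ) * e2
  have k1 : 0 ≤ (1 - s) * (c - A) := mul_nonneg (by linarith) (by linarith)
  have k2 : 0 ≤ s * (c - B) := mul_nonneg (by linarith) (by linarith)
  have k3 : 0 ≤ (1 - t) * (C - c) := mul_nonneg (by linarith) (by linarith)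
  have k4 : 0 ≤ t * (D - c) := mul_nonneg (by linarith) (by linarith)
  have k5 : (1 - s) * (c - A) + s * (c - B) + (1 - t) * (C - c) + t * (D - c) = 0 := by
    linear_combination -e3
  have m1 : (1 - s) * (c - A) = 0 := by linarith
  have m2 : s * (c - B) = 0 := by linarith
  have m3 : (1 - t) * (C - c) = 0 := by linarith
  have m4 : t * (D - c) = 0 := by linarith
  have n1 : (c : ℝ) - A = 0 := by
    rcases mul_eq_zero.1 m1 with h | h
    · linarith
    · exact h
  have n2 : (c : ℝ) - B = 0 := by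
    rcases mul_eq_zero.1 m2 with h | h
    · linarith
    · exact h
  have n3 : C - c = 0 := by
    rcases mul_eq_zero.1 m3 with h | h
    · linarith
    · exact h
  have n4 : D - c = 0 := by
    rcases mul_eq_zero.1 m4 with h | h
    · linarith
    · exact h
  linarith

theorem sep_ne (u v x y : Fin 28) (h : sep u v x y = true) (s t : ℝ)
    (hs : 0 < s) (hs1 : s < 1) (ht : 0 < t) (ht1 : t < 1)
    (e1 : (1 - s) * (X u : ℝ) + s * (X v : ℝ) = (1 - t) * (X x : ℝ) + t * (X y : ℝ))
    (e2 : (1 - s) * (Y u : ℝ) + s * (Y v : ℝ) = (1 - t) * (Y x : ℝ) + t * (Y y : ℝ)) : False := by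
  unfold sep sepW at h
  simp only [Bool.or_eq_true] at h
  rcases h with ((((h | h) | h) | h) | h) | h <;>
    exact sepF_ne _ _ _ _ _ _ _ h s t hs hs1 ht ht1 e1 e2

theorem pos_lt (a : unitInterval) (h0 : a ≠ 0) (h1 : a ≠ 1) : 0 < (a : ℝ) ∧ (a : ℝ) < 1 := by
  refine ⟨lt_of_le_of_ne a.2.1 ?_, lt_of_le_of_ne a.2.2 ?_⟩
  · intro h
    exact h0 (Subtype.ext h.symm)
  · intro h
    exact h1 (Subtype.ext h)

theorem draw : Pool.Agent.W595.Bond.Draw := by
  show ∃ (p : Fin 28 → ℝ × ℝ) (γ : ∀ u v : Fin 28, Path (p u) (p v)),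
        Function.Injective p ∧
        (∀ u v : Fin 28, gr.Adj u v → Function.Injective (⇑(γ u v))) ∧
        (∀ u v : Fin 28, gr.Adj u v → ∀ t : unitInterval, t ≠ 0 → t ≠ 1 →
          ∀ w : Fin 28, γ u v t ≠ p w) ∧
        (∀ u v x y : Fin 28, gr.Adj u v → gr.Adj x y → s(u, v) ≠ s(x, y) →
          ∀ a b : unitInterval, a ≠ 0 → a ≠ 1 → b ≠ 0 → b ≠ 1 →
            γ u v a ≠ γ x y b)
  refine ⟨pt, seg, ?_, ?_, ?_, ?_⟩
  · intro u v h
    unfold pt at h
    rw [Prod.mk.injEq] at h
    exact chk3 u v (by exact_mod_cast h.1) (by exact_mod_cast h.2)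
  · intro u v huv a b hab
    rw [seg_apply, seg_apply, Prod.mk.injEq] at hab
    obtain ⟨h1, h2⟩ := hab
    have k1 : ((a : ℝ) - b) * ((X v : ℝ) - X u) = 0 := by linear_combination h1
    have k2 : ((a : ℝ) - b) * ((Y v : ℝ) - Y u) = 0 := by linear_combination h2
    by_cases hh : (a : ℝ) - b = 0
    · exact Subtype.ext (by linarith)
    · exfalso
      have l1 : (X v : ℝ) - X u = 0 := (mul_eq_zero.1 k1).resolve_left hh
      have l2 : (Y v : ℝ) - Y u = 0 := (mul_eq_zero.1 k2).resolve_left hh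
      have l3 : X u = X v := by
        have : (X u : ℝ) = X v := by linarith
        exact_mod_cast this
      have l4 : Y u = Y v := by
        have : (Y u : ℝ) = Y v := by linarith
        exact_mod_cast this
      exact huv.ne (chk3 u v l3 l4)
  · intro u v huv t h0 h1 w h
    have hc := chk2
    rw [List.all_eq_true] at hc
    have hc1 := hc (u, v) (mem_allE u v huv)
    rw [List.all_eq_true] at hc1
    have hc2 := hc1 w (List.mem_finRange w)
    obtain ⟨t0, t1⟩ := pos_lt t h0 h1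
    rw [seg_apply] at h
    have h' : ((1 - (t : ℝ)) * (X u : ℝ) + (t : ℝ) * (X v : ℝ),
      (1 - (t : ℝ)) * (Y u : ℝ) + (t : ℝ) * (Y v : ℝ)) = ((X w : ℝ), (Y w : ℝ)) := h
    rw [Prod.mk.injEq] at h'
    exact sep_ne u v w w hc2 t (1 / 2) t0 t1 (by norm_num) (by norm_num)
      (by linarith [h'.1]) (by linarith [h'.2])
  · intro u v x y huv hxy hne a b ha0 ha1 hb0 hb1 h
    have hc := chk1
    rw [List.all_eq_true] at hc
    have hc1 := hc (u, v) (mem_allE u v huv)
    rw [List.all_eq_true] at hc1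
    have hc2 := hc1 (x, y) (mem_allE x y hxy)
    simp only [Bool.or_eq_true, beq_iff_eq, Prod.mk.injEq] at hc2
    rcases hc2 with (hc2 | hc2) | hc2
    · apply hne
      rw [hc2.1, hc2.2]
    · apply hne
      rw [hc2.1, hc2.2]
      exact Sym2.eq_swap
    · obtain ⟨a0, a1⟩ := pos_lt a ha0 ha1
      obtain ⟨b0, b1⟩ := pos_lt b hb0 hb1
      rw [seg_apply, seg_apply, Prod.mk.injEq] at h
      exact sep_ne u v x y hc2 a b a0 a1 b0 b1 h.1 h.2



end Pool.Agent.H81.Bond.Draw
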