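import Pool.Agent.H81.Bond.Data

set_option autoImplicit false
set_option maxRecDepth 100000

namespace Pool.Agent.H81.Bond

theorem chk : isS (goL6 TU tab 0 0 L) = true := by decide +kernel

end Pool.Agent.H81.Bond
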