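import Pool.Agent.H81.Bond.Check

set_option autoImplicit false

/-! Soundness of the checker. -/

namespace Pool.Agent.H81.Bond

theorem testBit_lor (a b i : ℕ) : (Nat.lor a b).testBit i = (a.testBit i || b.testBit i) :=
  Nat.testBit_or a b i

theorem testBit_land (a b i : ℕ) : (Nat.land a b).testBit i = (a.testBit i && b.testBit i) :=
  Nat.testBit_and a b i

theorem testBit_xor' (a b i : ℕ) : (Nat.xor a b).testBit i = (a.testBit i ^^ b.testBit i) :=
  Nat.testBit_xor a b i

theorem testBit_rest (q X i : ℕ) :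
    (Nat.xor q (Nat.land q X)).testBit i = (q.testBit i && !X.testBit i) := by
  rw [testBit_xor', testBit_land]
  cases q.testBit i <;> cases X.testBit i <;> rfl

theorem testBit_diff (k F i : ℕ) :
    (Nat.xor (Nat.lor k F) F).testBit i = (k.testBit i && !F.testBit i) := by
  rw [testBit_xor', testBit_lor]
  cases k.testBit i <;> cases F.testBit i <;> rfl

theorem sg_true {x : ℕ} (h : sg x = true) : ∃ e, ∀ i, x.testBit i = true ↔ i = e := by
  unfold sg at h
  have h1 : Nat.pow 2 (Nat.log2 x) = x := Nat.eq_of_beq_eq_true h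
  refine ⟨Nat.log2 x, fun i => ?_⟩
  have h2 : x.testBit i = (2 ^ Nat.log2 x).testBit i := congrArg (fun y => Nat.testBit y i) h1.symm
  rw [h2, Nat.testBit_two_pow]
  simp [eq_comm]

theorem sg_false {x : ℕ} (h : sg x = false) (hx : x ≠ 0) :
    ∃ i j, i ≠ j ∧ x.testBit i = true ∧ x.testBit j = true := by
  obtain ⟨i, hi⟩ := Nat.exists_testBit_of_ne_zero hx
  by_contra hcon
  push Not at hcon
  have hx2 : x = 2 ^ i := by
    apply Nat.eq_of_testBit_eq
    intro j
    rw [Nat.testBit_two_pow]
    by_cases hj : i = j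
    · subst hj; simp [hi]
    · have := hcon i j hj hi
      simp only [Bool.not_eq_true] at this
      rw [this]; simp [hj]
  have h1 : Nat.pow 2 (Nat.log2 x) ≠ x := Nat.ne_of_beq_eq_false h
  apply h1
  show 2 ^ Nat.log2 x = x
  rw [hx2, Nat.log2_two_pow]

theorem clr_bit {x i : ℕ} (h : (clr x).testBit i = true) (hx : x ≠ 0) :
    i ≠ Nat.log2 x ∧ x.testBit i = true := by
  unfold clr at h
  rw [testBit_xor'] at h
  have h2 : (Nat.pow 2 (Nat.log2 x)).testBit i = decide (Nat.log2 x = i) := Nat.testBit_two_pow
  rw [h2] at h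
  by_cases hi : Nat.log2 x = i
  · subst hi
    rw [Nat.testBit_log2 hx] at h
    simp at h
  · simp [hi] at h
    exact ⟨fun h' => hi h'.symm, h⟩

theorem three {x : ℕ} (hx : x ≠ 0) (h1 : sg x = false) (h2 : sg (clr x) = false) :
    ∃ i j l, i ≠ j ∧ i ≠ l ∧ j ≠ l ∧ x.testBit i = true ∧ x.testBit j = true ∧
      x.testBit l = true := by
  have hc : clr x ≠ 0 := by
    intro h0
    have h3 : Nat.pow 2 (Nat.log2 x) ≠ x := Nat.ne_of_beq_eq_false h1
    apply h3
    unfold clr at h0
    apply Nat.eq_of_testBit_eq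
    intro i
    have h4 : (Nat.xor x (Nat.pow 2 (Nat.log2 x))).testBit i = false := by
      rw [h0, Nat.zero_testBit]
    rw [testBit_xor'] at h4
    revert h4
    generalize x.testBit i = a
    generalize (Nat.pow 2 (Nat.log2 x)).testBit i = b
    cases a <;> cases b <;> simp
  obtain ⟨i, j, hij, hi, hj⟩ := sg_false h2 hc
  obtain ⟨hi1, hi2⟩ := clr_bit hi hx
  obtain ⟨hj1, hj2⟩ := clr_bit hj hx
  exact ⟨i, j, Nat.log2 x, hij, hi1, hj1, hi2, hj2, Nat.testBit_log2 hx⟩

section

variable (Good : Finset ℕ → Prop)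

/-- What a simple entry tells. -/
def SU (w : ℕ) : Prop := ∀ T : Finset ℕ, ¬ Good T →
  (∃ i ∈ T, w.testBit i = true ∧ (Nat.shiftRight w 76).testBit i = true) ∨
  (∃ i ∈ T, ∃ j ∈ T, i ≠ j ∧ w.testBit i = true ∧ w.testBit j = true)

/-- What a list entry tells. -/
def SG (qs : List ℕ) : Prop := ∀ T : Finset ℕ, ¬ Good T →
  ∃ q ∈ qs, ∀ i, q.testBit i = true → i ∈ T

/-- The table `TU` is fine. -/
def SUT (TU : ℕ) : Prop := ∀ d, d < 512 → SU Good
  (Nat.mod (Nat.shiftRight TU (Nat.mul 152 d)) 5708990770823839524233143877797980545530986496)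

/-- What `K1` tells. -/
def KS (X K : ℕ) (T : Finset ℕ) : Prop :=
  (∃ i ∈ T, K.testBit i = true ∧ X.testBit i = false) ∨
  (∃ i ∈ T, ∃ j ∈ T, i ≠ j ∧ X.testBit i = false ∧ X.testBit j = false)

variable {Good}

theorem kU_spec {TU X d K : ℕ} (hT : SUT Good TU) (hd : d < 512) (h : kU TU X d = K + 1)
    (T : Finset ℕ) (hg : ¬ Good T) : KS X K T := by
  unfold kU at h
  rw [fc_eq] at h
  have h0 := hT d hd T hg
  generalize Nat.mod (Nat.shiftRight TU (Nat.mul 152 d))
    5708990770823839524233143877797980545530986496 = w at h h0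
  cases hb : Nat.beq (Nat.land w X) 0
  · rw [hb] at h; exact absurd h (by simp)
  · rw [hb] at h
    have hK : Nat.shiftRight w 76 = K := Nat.succ.inj h
    have hz : Nat.land w X = 0 := Nat.eq_of_beq_eq_true hb
    have hX : ∀ i, w.testBit i = true → X.testBit i = false := by
      intro i hi
      have : (Nat.land w X).testBit i = false := by rw [hz, Nat.zero_testBit]
      rw [testBit_land, hi] at this
      simpa using this
    rcases h0 with ⟨i, hi, h1, h2⟩ | ⟨i, hi, j, hj, hij, h1, h2⟩
    · left
      exact ⟨i, hi, by rw [← hK]; exact h2, hX i h1⟩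
    · right
      exact ⟨i, hi, j, hj, hij, hX i h1, hX j h2⟩

theorem kG_cons (X q : ℕ) (qs : List ℕ) (K : ℕ) : kG X (q :: qs) K =
    fc (fun x => Bool.rec (Bool.rec (kG X qs K) (kG X qs (Nat.lor K x)) (sg x)) 0 (Nat.beq x 0))
        (Nat.xor q (Nat.land q X)) := rfl

theorem kG_mono {X : ℕ} (qs : List ℕ) {K0 K : ℕ} (h : kG X qs K0 = K + 1) (i : ℕ)
    (hi : K0.testBit i = true) : K.testBit i = true := by
  induction qs generalizing K0 with
  | nil =>
    have h1 : Nat.succ K0 = K + 1 := h
    have : K0 = K := by omega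
    rw [← this]; exact hi
  | cons q qs ih =>
    rw [kG_cons, fc_eq] at h
    cases hb : Nat.beq (Nat.xor q (Nat.land q X)) 0
    · rw [hb] at h
      cases hs : sg (Nat.xor q (Nat.land q X))
      · rw [hs] at h
        exact ih h hi
      · rw [hs] at h
        refine ih h ?_
        rw [testBit_lor, hi]; rfl
    · rw [hb] at h
      exact absurd h (by simp)

theorem kG_spec {X : ℕ} (qs : List ℕ) {K0 K : ℕ} (h : kG X qs K0 = K + 1)
    (T : Finset ℕ) (hq : ∃ q ∈ qs, ∀ i, q.testBit i = true → i ∈ T) : KS X K T := by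
  induction qs generalizing K0 with
  | nil => obtain ⟨q, hq, _⟩ := hq; exact absurd hq (by simp)
  | cons q qs ih =>
    rw [kG_cons, fc_eq] at h
    obtain ⟨q', hq', hT⟩ := hq
    cases hb : Nat.beq (Nat.xor q (Nat.land q X)) 0
    · rw [hb] at h
      have hne : Nat.xor q (Nat.land q X) ≠ 0 := Nat.ne_of_beq_eq_false hb
      rcases List.mem_cons.mp hq' with rfl | hq'
      · cases hs : sg (Nat.xor q' (Nat.land q' X))
        · right
          obtain ⟨i, j, hij, hi, hj⟩ := sg_false hs hne
          rw [testBit_rest, Bool.and_eq_true] at hi hj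
          exact ⟨i, hT i hi.1, j, hT j hj.1, hij, by simpa using hi.2, by simpa using hj.2⟩
        · left
          rw [hs] at h
          obtain ⟨i, hi⟩ := Nat.exists_testBit_of_ne_zero hne
          have hi2 := hi
          rw [testBit_rest, Bool.and_eq_true] at hi
          refine ⟨i, hT i hi.1, ?_, by simpa using hi.2⟩
          refine kG_mono qs h i ?_
          rw [testBit_lor, hi2, Bool.or_true]
      · cases hs : sg (Nat.xor q (Nat.land q X))
        · rw [hs] at h
          exact ih h ⟨q', hq', hT⟩
        · rw [hs] at h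
          exact ih h ⟨q', hq', hT⟩
    · rw [hb] at h
      exact absurd h (by simp)

theorem K1_spec {TU : ℕ} {tab : BT} (hT : SUT Good TU) (hG : ∀ i, SG Good (tab.get i))
    {X d K : ℕ} (h : K1 TU tab X d = K + 1) (T : Finset ℕ) (hg : ¬ Good T) : KS X K T := by
  unfold K1 at h
  cases hb : Nat.ble d 511
  · rw [hb] at h
    exact kG_spec _ h T (hG _ T hg)
  · rw [hb] at h
    have hd : d ≤ 511 := Nat.le_of_ble_eq_true hb
    exact kU_spec hT (by omega) h T hg

/-- `T` contains `X`, avoids `F` and has at most `r` further elements. -/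
structure Inv (T : Finset ℕ) (X F r : ℕ) : Prop where
  sub : ∀ i, X.testBit i = true → i ∈ T
  avoid : ∀ i ∈ T, F.testBit i = false
  card : (T.filter (fun i => X.testBit i = false)).card ≤ r

def Sound {σ : Type} (Good : Finset ℕ → Prop) (g : ℕ → ℕ → σ → Option σ) (r : ℕ) : Prop :=
  ∀ X F s s', g X F s = some s' → ∀ T, Inv T X F r → Good T

def SoundS {σ : Type} (Good : Finset ℕ → Prop) (g : ℕ → ℕ → σ → Option σ) (r : ℕ) : Prop :=
  ∀ X F s s', g X F s = some s' → ∀ T r', r' + 1 ≤ r → Inv T X F r' → Good T

theorem Sound.toS {σ : Type} {g : ℕ → ℕ → σ → Option σ} {r : ℕ} (h : Sound Good g r) :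
    SoundS Good g (r + 1) := by
  intro X F s s' hs T r' hr hT
  exact h X F s s' hs T ⟨hT.sub, hT.avoid, hT.card.trans (by omega)⟩

theorem Inv.add_one {T : Finset ℕ} {X F r x : ℕ} (h : Inv T X F (r + 1))
    (hx : ∀ i, x.testBit i = true → i ∈ T)
    (hne : ∃ i, x.testBit i = true ∧ X.testBit i = false) : Inv T (Nat.lor X x) F r where
  avoid := h.avoid
  sub := by
    intro i hi
    rw [testBit_lor, Bool.or_eq_true] at hi
    rcases hi with hi | hi
    · exact h.sub i hi
    · exact hx i hi
  card := by
    obtain ⟨e, he, heX⟩ := hne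
    have h1 : T.filter (fun i => (Nat.lor X x).testBit i = false) ⊆
        (T.filter (fun i => X.testBit i = false)).erase e := by
      intro i hi
      rw [Finset.mem_filter, testBit_lor, Bool.or_eq_false_iff] at hi
      rw [Finset.mem_erase, Finset.mem_filter]
      refine ⟨?_, hi.1, hi.2.1⟩
      rintro rfl
      rw [he] at hi; exact absurd hi.2.2 (by simp)
    have h2 : e ∈ T.filter (fun i => X.testBit i = false) := Finset.mem_filter.mpr ⟨hx e he, heX⟩
    have h3 := Finset.card_le_card h1
    rw [Finset.card_erase_of_mem h2] at h3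
    have := h.card
    omega

theorem Inv.add_two {T : Finset ℕ} {X F r x : ℕ} (h : Inv T X F (r + 2))
    (hx : ∀ i, x.testBit i = true → i ∈ T)
    (hne : ∃ i j, i ≠ j ∧ x.testBit i = true ∧ x.testBit j = true ∧ X.testBit i = false ∧
      X.testBit j = false) : Inv T (Nat.lor X x) F r where
  avoid := h.avoid
  sub := by
    intro i hi
    rw [testBit_lor, Bool.or_eq_true] at hi
    rcases hi with hi | hi
    · exact h.sub i hi
    · exact hx i hi
  card := by
    obtain ⟨i, j, hij, hi, hj, hXi, hXj⟩ := hne
    have h1 : T.filter (fun i => (Nat.lor X x).testBit i = false) ⊆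
        ((T.filter (fun i => X.testBit i = false)).erase i).erase j := by
      intro l hl
      rw [Finset.mem_filter, testBit_lor, Bool.or_eq_false_iff] at hl
      rw [Finset.mem_erase, Finset.mem_erase, Finset.mem_filter]
      refine ⟨?_, ?_, hl.1, hl.2.1⟩
      · rintro rfl; rw [hj] at hl; exact absurd hl.2.2 (by simp)
      · rintro rfl; rw [hi] at hl; exact absurd hl.2.2 (by simp)
    have h2 : i ∈ T.filter (fun i => X.testBit i = false) := Finset.mem_filter.mpr ⟨hx i hi, hXi⟩
    have h3 : j ∈ (T.filter (fun i => X.testBit i = false)).erase i :=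
      Finset.mem_erase.mpr ⟨hij.symm, Finset.mem_filter.mpr ⟨hx j hj, hXj⟩⟩
    have h4 := Finset.card_le_card h1
    rw [Finset.card_erase_of_mem h3, Finset.card_erase_of_mem h2] at h4
    have := h.card
    omega

theorem Inv.add_three {T : Finset ℕ} {X F r x : ℕ} (h : Inv T X F (r + 2))
    (hx : ∀ i, x.testBit i = true → i ∈ T)
    (hne : ∃ i j l, i ≠ j ∧ i ≠ l ∧ j ≠ l ∧ x.testBit i = true ∧ x.testBit j = true ∧
      x.testBit l = true ∧ X.testBit i = false ∧ X.testBit j = false ∧ X.testBit l = false) :
    ∃ r', r' + 1 ≤ r ∧ Inv T (Nat.lor X x) F r' := by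
  refine ⟨(T.filter (fun i => (Nat.lor X x).testBit i = false)).card, ?_,
    ⟨?_, h.avoid, le_rfl⟩⟩
  · obtain ⟨i, j, l, hij, hil, hjl, hi, hj, hl, hXi, hXj, hXl⟩ := hne
    have h1 : T.filter (fun i => (Nat.lor X x).testBit i = false) ⊆
        (((T.filter (fun i => X.testBit i = false)).erase i).erase j).erase l := by
      intro m hm
      rw [Finset.mem_filter, testBit_lor, Bool.or_eq_false_iff] at hm
      rw [Finset.mem_erase, Finset.mem_erase, Finset.mem_erase, Finset.mem_filter]
      refine ⟨?_, ?_, ?_, hm.1, hm.2.1⟩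
      · rintro rfl; rw [hl] at hm; exact absurd hm.2.2 (by simp)
      · rintro rfl; rw [hj] at hm; exact absurd hm.2.2 (by simp)
      · rintro rfl; rw [hi] at hm; exact absurd hm.2.2 (by simp)
    have h2 : i ∈ T.filter (fun i => X.testBit i = false) :=
      Finset.mem_filter.mpr ⟨hx i hi, hXi⟩
    have h3 : j ∈ (T.filter (fun i => X.testBit i = false)).erase i :=
      Finset.mem_erase.mpr ⟨hij.symm, Finset.mem_filter.mpr ⟨hx j hj, hXj⟩⟩
    have h4 : l ∈ ((T.filter (fun i => X.testBit i = false)).erase i).erase j :=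
      Finset.mem_erase.mpr ⟨hjl.symm, Finset.mem_erase.mpr ⟨hil.symm,
        Finset.mem_filter.mpr ⟨hx l hl, hXl⟩⟩⟩
    have h5 := Finset.card_le_card h1
    rw [Finset.card_erase_of_mem h4, Finset.card_erase_of_mem h3,
      Finset.card_erase_of_mem h2] at h5
    have h6 := Finset.card_pos.mpr ⟨l, h4⟩
    rw [Finset.card_erase_of_mem h3, Finset.card_erase_of_mem h2] at h6
    have := h.card
    omega
  · intro i hi
    rw [testBit_lor, Bool.or_eq_true] at hi
    rcases hi with hi | hi
    · exact h.sub i hi
    · exact hx i hi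

theorem KS_zero {X K F : ℕ} {T : Finset ℕ} (h : KS X K T) (hT : Inv T X F 0) : False := by
  have hc : ∀ i ∈ T, X.testBit i = true := by
    intro i hi
    by_contra hb
    have h1 : i ∈ T.filter (fun i => X.testBit i = false) :=
      Finset.mem_filter.mpr ⟨hi, by simpa using hb⟩
    have := Finset.card_pos.mpr ⟨i, h1⟩
    have := hT.card
    omega
  rcases h with ⟨i, hi, _, h2⟩ | ⟨i, hi, j, hj, _, h2, _⟩
  · rw [hc i hi] at h2; exact absurd h2 (by simp)
  · rw [hc i hi] at h2; exact absurd h2 (by simp)

theorem KS_one {X K F : ℕ} {T : Finset ℕ} (h : KS X K T) (hT : Inv T X F 1) :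
    ∃ i ∈ T, K.testBit i = true ∧ X.testBit i = false := by
  rcases h with h | ⟨i, hi, j, hj, hij, h1, h2⟩
  · exact h
  · exact absurd (Finset.card_le_one.mp hT.card i (Finset.mem_filter.mpr ⟨hi, h1⟩) j
      (Finset.mem_filter.mpr ⟨hj, h2⟩)) hij

theorem go0_sound {TU : ℕ} {tab : BT} (hT : SUT Good TU) (hG : ∀ i, SG Good (tab.get i)) :
    Sound Good (go0 TU tab) 0 := by
  intro X F s s' h T hI
  by_contra hg
  unfold go0 at h
  cases hk : K1 TU tab X (Nat.mod s 1024) with
  | zero => rw [hk] at h; exact absurd h (by simp)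
  | succ K => exact KS_zero (K1_spec hT hG hk T hg) hI

theorem one_sound {TU : ℕ} {tab : BT} (hT : SUT Good TU) (hG : ∀ i, SG Good (tab.get i))
    {X F e : ℕ} {T : Finset ℕ} (hI : Inv T X F 1) (he : e ∈ T) (heX : X.testBit e = false)
    (n : ℕ) {I s s' : ℕ}
    (h : one TU tab X n I s = some s') (hIe : I.testBit e = true) : Good T := by
  by_contra hg
  induction n generalizing I s with
  | zero => exact absurd h (by simp [one])
  | succ n ih =>
    have h1 : (Bool.rec
      (Nat.rec none (fun K _ => one TU tab X n (Nat.land I K) (Nat.div s 1024))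
        (K1 TU tab X (Nat.mod s 1024)))
      (some s) (Nat.beq I 0) : Option ℕ) = some s' := h
    cases hb : Nat.beq I 0
    · rw [hb] at h1
      cases hk : K1 TU tab X (Nat.mod s 1024) with
      | zero => rw [hk] at h1; exact absurd h1 (by simp)
      | succ K =>
        rw [hk] at h1
        refine ih h1 ?_
        obtain ⟨i, hi, hK, hX⟩ := KS_one (K1_spec hT hG hk T hg) hI
        have : i = e := Finset.card_le_one.mp hI.card i (Finset.mem_filter.mpr ⟨hi, hX⟩) e
          (Finset.mem_filter.mpr ⟨he, heX⟩)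
        rw [testBit_land, hIe, ← this, hK]; rfl
    · have : I = 0 := Nat.eq_of_beq_eq_true hb
      rw [this, Nat.zero_testBit] at hIe
      exact absurd hIe (by simp)

theorem go1_sound {TU : ℕ} {tab : BT} (hT : SUT Good TU) (hG : ∀ i, SG Good (tab.get i)) :
    Sound Good (go1 TU tab) 1 := by
  intro X F s s' h T hI
  by_contra hg
  unfold go1 at h
  cases hk : K1 TU tab X (Nat.mod s 1024) with
  | zero => rw [hk] at h; exact absurd h (by simp)
  | succ K =>
    rw [hk] at h
    obtain ⟨i, hi, hK, hX⟩ := KS_one (K1_spec hT hG hk T hg) hI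
    refine hg (one_sound hT hG hI hi hX 20 h ?_)
    rw [testBit_diff, hK, hI.avoid i hi]; rfl

theorem node_cons {σ : Type} (g1 g2 g3 : ℕ → ℕ → σ → Option σ) (X q : ℕ) (qs : List ℕ) (F : ℕ)
    (s : σ) : node g1 g2 g3 X (q :: qs) F s = fc (fun x =>
        Bool.rec
          (Bool.rec
            (node g1 g2 g3 X qs F s)
            (Bool.rec
              (Bool.rec
                (Option.rec none (fun s' => node g1 g2 g3 X qs F s')
                  (fc (fun X' => g3 X' F s) (Nat.lor X x)))
                (Option.rec none (fun s' => node g1 g2 g3 X qs F s')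
                  (fc (fun X' => g2 X' F s) (Nat.lor X x)))
                (sg (clr x)))
              (Option.rec none (fun s' => fc (fun F' => node g1 g2 g3 X qs F' s') (Nat.lor F x))
                (fc (fun X' => g1 X' F s) (Nat.lor X x)))
              (sg x))
            (Nat.beq (Nat.land x F) 0))
          none
          (Nat.beq x 0))
        (Nat.xor q (Nat.land q X)) := rfl

theorem node_sound {σ : Type} {g1 g2 g3 : ℕ → ℕ → σ → Option σ} {r : ℕ}
    (h1 : Sound Good g1 (r + 1)) (h2 : Sound Good g2 r) (h3 : SoundS Good g3 r)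
    {X : ℕ} (qs : List ℕ) {F : ℕ} {s s' : σ} (h : node g1 g2 g3 X qs F s = some s')
    {T : Finset ℕ} (hT : Inv T X F (r + 2))
    (hq : ∃ q ∈ qs, ∀ i, q.testBit i = true → i ∈ T) : Good T := by
  induction qs generalizing F s with
  | nil => obtain ⟨q, hq, _⟩ := hq; exact absurd hq (by simp)
  | cons q qs ih =>
    rw [node_cons, fc_eq] at h
    obtain ⟨q', hq', hqT⟩ := hq
    have hrest := testBit_rest q X
    have hxT : q' = q → ∀ i, (Nat.xor q (Nat.land q X)).testBit i = true → i ∈ T := by
      rintro rfl i hi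
      rw [hrest, Bool.and_eq_true] at hi
      exact hqT i hi.1
    have hxX : ∀ i, (Nat.xor q (Nat.land q X)).testBit i = true → X.testBit i = false := by
      intro i hi
      rw [hrest, Bool.and_eq_true] at hi
      simpa using hi.2
    generalize Nat.xor q (Nat.land q X) = x at h hrest hxT hxX
    cases hb : Nat.beq x 0
    · rw [hb] at h
      have hne : x ≠ 0 := Nat.ne_of_beq_eq_false hb
      have hmem : q' ≠ q → q' ∈ qs := fun hn => by
        rcases List.mem_cons.mp hq' with rfl | h'
        · exact absurd rfl hn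
        · exact h'
      cases hF : Nat.beq (Nat.land x F) 0
      · rw [hF] at h
        by_cases hqq : q' = q
        · exfalso
          have hnz : Nat.land x F ≠ 0 := Nat.ne_of_beq_eq_false hF
          obtain ⟨i, hi⟩ := Nat.exists_testBit_of_ne_zero hnz
          rw [testBit_land, Bool.and_eq_true] at hi
          have := hT.avoid i (hxT hqq i hi.1)
          rw [hi.2] at this; exact absurd this (by simp)
        · exact ih h hT ⟨q', hmem hqq, hqT⟩
      · rw [hF] at h
        cases hs : sg x
        · rw [hs] at h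
          cases hd : sg (clr x)
          · rw [hd] at h
            cases hg : fc (fun X' => g3 X' F s) (Nat.lor X x) with
            | none => rw [hg] at h; exact absurd h (by simp)
            | some s1 =>
              rw [hg] at h
              rw [fc_eq] at hg
              by_cases hqq : q' = q
              · obtain ⟨i, j, l, hij, hil, hjl, hi, hj, hl⟩ := three hne hs hd
                obtain ⟨r', hr', hI⟩ := hT.add_three (hxT hqq)
                  ⟨i, j, l, hij, hil, hjl, hi, hj, hl, hxX i hi, hxX j hj, hxX l hl⟩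
                exact h3 _ _ _ _ hg T r' hr' hI
              · exact ih h hT ⟨q', hmem hqq, hqT⟩
          · rw [hd] at h
            cases hg : fc (fun X' => g2 X' F s) (Nat.lor X x) with
            | none => rw [hg] at h; exact absurd h (by simp)
            | some s1 =>
              rw [hg] at h
              rw [fc_eq] at hg
              by_cases hqq : q' = q
              · obtain ⟨i, j, hij, hi, hj⟩ := sg_false hs hne
                exact h2 _ _ _ _ hg T (hT.add_two (hxT hqq)
                  ⟨i, j, hij, hi, hj, hxX i hi, hxX j hj⟩)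
              · exact ih h hT ⟨q', hmem hqq, hqT⟩
        · rw [hs] at h
          cases hg : fc (fun X' => g1 X' F s) (Nat.lor X x) with
          | none => rw [hg] at h; exact absurd h (by simp)
          | some s1 =>
            rw [hg] at h
            rw [fc_eq] at hg
            have h' : node g1 g2 g3 X qs (Nat.lor F x) s1 = some s' := by
              have h4 : fc (fun F' => node g1 g2 g3 X qs F' s1) (Nat.lor F x) = some s' := h
              rw [fc_eq] at h4
              exact h4
            obtain ⟨e, he⟩ := sg_true hs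
            by_cases heT : e ∈ T
            · refine h1 _ _ _ _ hg T (hT.add_one ?_ ⟨e, (he e).mpr rfl, hxX e ((he e).mpr rfl)⟩)
              intro i hi
              rw [(he i).mp hi]; exact heT
            · have hqq : q' ≠ q := fun hqq => heT (hxT hqq e ((he e).mpr rfl))
              refine ih h' ⟨hT.sub, ?_, hT.card⟩ ⟨q', hmem hqq, hqT⟩
              intro i hi
              rw [testBit_lor, hT.avoid i hi, Bool.false_or]
              by_contra hc
              simp only [Bool.not_eq_false] at hc
              rw [(he i).mp hc] at hi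
              exact heT hi
    · rw [hb] at h
      exact absurd h (by simp)

theorem node_sound' {σ : Type} {tab : BT} (hG : ∀ i, SG Good (tab.get i))
    {g1 g2 g3 : ℕ → ℕ → σ → Option σ} {r : ℕ}
    (h1 : Sound Good g1 (r + 1)) (h2 : Sound Good g2 r) (h3 : SoundS Good g3 r)
    {X d F : ℕ} {s s' : σ} (h : node g1 g2 g3 X (tab.get d) F s = some s')
    {T : Finset ℕ} (hT : Inv T X F (r + 2)) : Good T := by
  by_contra hg
  exact hg (node_sound h1 h2 h3 _ h hT (hG d T hg))

theorem lift_sound {g : ℕ → ℕ → ℕ → Option ℕ} {r : ℕ} (hg : Sound Good g r) :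
    Sound Good (lift g) r := by
  intro X F L L' h T hT
  unfold lift at h
  cases L with
  | nil => exact absurd h (by simp)
  | cons a t =>
    have h1 : (Option.rec none (fun _ => some t) (g X F a) : Option (List ℕ)) = some L' := h
    cases hk : g X F a with
    | none => rw [hk] at h1; exact absurd h1 (by simp)
    | some s => exact hg _ _ _ _ hk T hT

theorem up_sound {tab : BT} (hG : ∀ i, SG Good (tab.get i))
    {g1 g2 g3 : ℕ → ℕ → List ℕ → Option (List ℕ)} {r : ℕ}
    (h1 : Sound Good g1 (r + 1)) (h2 : Sound Good g2 r) (h3 : SoundS Good g3 r) :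
    Sound Good (up tab g1 g2 g3) (r + 2) := by
  intro X F L L' h T hT
  unfold up at h
  cases L with
  | nil => exact absurd h (by simp)
  | cons a t => exact node_sound' hG h1 h2 h3 h hT

theorem goL6_sound {TU : ℕ} {tab : BT} (hT : SUT Good TU) (hG : ∀ i, SG Good (tab.get i)) :
    Sound Good (goL6 TU tab) 6 := by
  have h0 : Sound Good (go0 TU tab) 0 := go0_sound hT hG
  have h1 : Sound Good (go1 TU tab) 1 := go1_sound hT hG
  have h2 : Sound Good (go2 TU tab) 2 := fun X F s s' h T hI =>
    node_sound' (r := 0) hG h1 h0 (fun _ _ _ _ _ _ r' hr => by omega) h hI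
  have h3 : Sound Good (go3 TU tab) 3 := fun X F s s' h T hI =>
    node_sound' (r := 1) hG h2 h1 h0.toS h hI
  have h4 : Sound Good (go4 TU tab) 4 := fun X F s s' h T hI =>
    node_sound' (r := 2) hG h3 h2 h1.toS h hI
  have h5 : Sound Good (goL5 TU tab) 5 := up_sound hG (lift_sound h4) (lift_sound h3)
    (lift_sound h2).toS
  exact up_sound hG h5 (lift_sound h4) (lift_sound h3).toS

/-- Main soundness statement. -/
theorem main {TU : ℕ} {tab : BT} (hU : SUT Good TU) (hG : ∀ i, SG Good (tab.get i)) (L : List ℕ)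
    (h : isS (goL6 TU tab 0 0 L) = true) (T : Finset ℕ) (hc : T.card ≤ 6) : Good T := by
  obtain ⟨s', hs'⟩ := isS_iff _ h
  refine goL6_sound hU hG 0 0 L s' hs' T ⟨?_, ?_, ?_⟩
  · intro i hi; simp at hi
  · intro i _; simp
  · exact (Finset.card_filter_le _ _).trans hc

end

end Pool.Agent.H81.Bond
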