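import Pool.Agent.H81.Bond.Valid
import Pool.Agent.H81.Bond.Run

set_option autoImplicit false
set_option maxRecDepth 100000

/-! After the deletion of at most six edges six vertices dominate. -/

namespace Pool.Agent.H81.Bond

open Pool.Agent.W595.Bond (incL inc em gr)

/-- The 76 edges. -/
def EL : List (Fin 28 × Fin 28) := [(0, 1), (0, 3), (0, 4), (0, 7), (0, 11), (1, 2), (1, 4), (1, 5), (1, 8), (2, 3), (2, 5), (2, 6), (2, 9), (3, 6), (3, 7), (3, 10), (4, 8), (4, 11), (4, 15), (5, 8), (5, 9), (5, 12), (6, 9), (6, 10), (6, 13), (7, 10), (7, 11), (7, 14), (8, 12), (8, 15), (9, 12), (9, 13), (10, 13), (10, 14), (11, 14), (11, 15), (12, 13), (12, 15), (12, 16), (12, 19), (12, 23), (13, 14), (13, 16), (13, 17), (13, 20), (14, 15), (14, 17), (14, 18), (14, 21), (15, 18), (15, 19), (15, 22), (16, 20), (16, 23), (16, 27), (17, 20), (17, 21), (17, 24), (18, 21), (18, 22), (18, 25), (19, 22), (19, 23), (19, 26), (20, 24), (20, 27), (21, 24), (21, 25), (22, 25), (22, 26), (23, 26), (23, 27), (24, 25), (24, 27),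 (25, 26), (26, 27)]

def ends (e : ℕ) : Fin 28 × Fin 28 := EL.getD e (0, 0)

theorem inc_ends : ∀ e < 76, ∀ v : Fin 28, (inc v).testBit e = true →
    v = (ends e).1 ∨ v = (ends e).2 := by decide +kernel

theorem ends_lt : ∀ e < 76, (ends e).1 < (ends e).2 := by decide +kernel

theorem ends_inj : ∀ e < 76, ∀ f < 76, ends e = ends f → e = f := by decide +kernel

theorem inc_lt : ∀ v : Fin 28, inc v < 2 ^ 76 := by decide +kernel

theorem inc_bit {v : Fin 28} {e : ℕ} (h : (inc v).testBit e = true) : e < 76 := by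
  by_contra hc
  have h1 : inc v < 2 ^ e := lt_of_lt_of_le (inc_lt v) (Nat.pow_le_pow_right (by norm_num) (by omega))
  rw [Nat.testBit_eq_false_of_lt h1] at h
  exact absurd h (by simp)

def edge (e : ℕ) : Sym2 (Fin 28) := s((ends e).1, (ends e).2)

theorem edge_inj {e f : ℕ} (he : e < 76) (hf : f < 76) (h : edge e = edge f) : e = f := by
  have a1 := ends_lt e he
  have b1 := ends_lt f hf
  unfold edge at h
  rw [Sym2.eq_iff] at h
  rcases h with ⟨h1, h2⟩ | ⟨h1, h2⟩
  · exact ends_inj e he f hf (Prod.ext h1 h2)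
  · exfalso
    rw [h1, h2] at a1
    exact lt_asymm a1 b1

theorem edge_eq {u v : Fin 28} {e : ℕ} (hu : (inc u).testBit e = true)
    (hv : (inc v).testBit e = true) (huv : u ≠ v) : edge e = s(u, v) := by
  have he := inc_bit hu
  unfold edge
  rcases inc_ends e he u hu with h1 | h1 <;> rcases inc_ends e he v hv with h2 | h2
  · exact absurd (h1.trans h2.symm) huv
  · rw [h1, h2]
  · rw [h1, h2]; exact Sym2.eq_swap
  · exact absurd (h1.trans h2.symm) huv

theorem surv (S : Finset (Sym2 (Fin 28))) (hS : S.card ≤ 6) :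
    ∃ D : Finset (Fin 28), D.card = 6 ∧
      ∀ v, v ∈ D ∨ ∃ u ∈ D, (gr.deleteEdges (↑S : Set (Sym2 (Fin 28)))).Adj u v := by
  classical
  let T : Finset ℕ := (Finset.range 76).filter (fun e => edge e ∈ S)
  have hT : T.card ≤ 6 := by
    refine le_trans (Finset.card_le_card_of_injOn edge ?_ ?_) hS
    · intro e he
      exact (Finset.mem_filter.mp he).2
    · intro e he f hf h
      have h1 := Finset.mem_range.mp (Finset.mem_filter.mp (Finset.mem_coe.mp he)).1
      have h2 := Finset.mem_range.mp (Finset.mem_filter.mp (Finset.mem_coe.mp hf)).1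
      exact edge_inj h1 h2 h
  obtain ⟨D, hpop, hD⟩ := main (Good := Good) hU hG L chk T hT
  refine ⟨Finset.univ.filter (fun v : Fin 28 => D.testBit v.1 = true), ?_, ?_⟩
  · rw [Finset.card_filter, ← hpop, pop_eq]
    exact (Finset.sum_range (fun i => if D.testBit i = true then 1 else 0)).symm
  · intro v
    cases hv : D.testBit v.1
    · right
      obtain ⟨e, he, heT⟩ := hD v.1 v.2 hv
      rw [testBit_land, Bool.and_eq_true] at he
      obtain ⟨hev, heD⟩ := he
      obtain ⟨k, hk, hkD, hke⟩ := incD_spec incL D e heD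
      rw [incL_len] at hk
      have huv : (⟨k, hk⟩ : Fin 28) ≠ v := by
        rintro rfl
        rw [hkD] at hv
        exact absurd hv (by simp)
      have hu' : (inc (⟨k, hk⟩ : Fin 28)).testBit e = true := hke
      have hv' : (inc v).testBit e = true := hev
      have hedge := edge_eq hu' hv' huv
      refine ⟨⟨k, hk⟩, Finset.mem_filter.mpr ⟨Finset.mem_univ _, hkD⟩, ?_⟩
      rw [SimpleGraph.deleteEdges_adj]
      refine ⟨⟨huv, ?_⟩, ?_⟩
      · intro h0
        have h1 : (Pool.Agent.W595.Bond.em (⟨k, hk⟩ : Fin 28) v).testBit e = true := by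
          unfold Pool.Agent.W595.Bond.em
          rw [testBit_land, hu', hv']; rfl
        rw [h0, Nat.zero_testBit] at h1
        exact absurd h1 (by simp)
      · intro hmem
        apply heT
        rw [Finset.mem_filter, Finset.mem_range]
        exact ⟨inc_bit hu', by rw [hedge]; exact hmem⟩
    · left
      exact Finset.mem_filter.mpr ⟨Finset.mem_univ _, hv⟩

end Pool.Agent.H81.Bond
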