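import Pool.Agent.H81.Bond.Data
import Pool.Agent.H81.Bond.Sound
import Pool.Graph.R_seed8.W595.Bond.Gr

set_option autoImplicit false
set_option maxRecDepth 100000

/-! The tables of dominating sets are correct. -/

namespace Pool.Agent.H81.Bond

open Pool.Agent.W595.Bond (incL)

/-- number of bits among the lowest `k` bits of `d` -/
noncomputable def pop (k : ℕ) : ℕ → ℕ :=
  Nat.rec (motive := fun _ => ℕ → ℕ) (fun _ => 0)
    (fun _ ih d => Nat.add (Nat.mod d 2) (ih (Nat.div d 2))) k

theorem pop_eq (k d : ℕ) : pop k d = ∑ i ∈ Finset.range k, if d.testBit i = true then 1 else 0 := by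
  induction k generalizing d with
  | zero => rfl
  | succ k ih =>
    rw [Finset.sum_range_succ']
    have h1 : pop (k + 1) d = d % 2 + pop k (d / 2) := rfl
    rw [h1, ih, Nat.add_comm]
    congr 1
    · apply Finset.sum_congr rfl
      intro i _
      rw [Nat.testBit_add_one]
    · rw [Nat.testBit_zero]
      rcases Nat.mod_two_eq_zero_or_one d with h | h <;> rw [h] <;> simp

/-- union of the incident edge masks of the vertices in the bit set `d` -/
noncomputable def incD (l : List ℕ) : ℕ → ℕ :=
  List.rec (motive := fun _ => ℕ → ℕ) (fun _ => 0)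
    (fun i _ ih d => Bool.rec (ih (Nat.div d 2)) (Nat.lor i (ih (Nat.div d 2)))
      (Nat.beq (Nat.mod d 2) 1)) l

theorem beq_mod (d : ℕ) : Nat.beq (Nat.mod d 2) 1 = d.testBit 0 := by
  rw [Nat.testBit_zero]
  have h : Nat.mod d 2 = d % 2 := rfl
  rw [h]
  rcases Nat.mod_two_eq_zero_or_one d with h | h <;> rw [h] <;> rfl

theorem div_testBit (d i : ℕ) : (Nat.div d 2).testBit i = d.testBit (i + 1) := by
  rw [Nat.testBit_add_one]; rfl

theorem incD_spec (l : List ℕ) (d e : ℕ) (h : (incD l d).testBit e = true) :
    ∃ k, k < l.length ∧ d.testBit k = true ∧ (l.getD k 0).testBit e = true := by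
  induction l generalizing d with
  | nil => exact absurd h (by simp [incD])
  | cons a l ih =>
    have h0 : incD (a :: l) d = Bool.rec (incD l (Nat.div d 2)) (Nat.lor a (incD l (Nat.div d 2)))
      (Nat.beq (Nat.mod d 2) 1) := rfl
    rw [h0, beq_mod] at h
    have key : (incD l (Nat.div d 2)).testBit e = true →
        ∃ k, k < (a :: l).length ∧ d.testBit k = true ∧ ((a :: l).getD k 0).testBit e = true := by
      intro h1
      obtain ⟨k, hk, h2, h3⟩ := ih _ h1
      refine ⟨k + 1, by simpa using hk, ?_, by simpa using h3⟩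
      rw [← div_testBit]; exact h2
    cases hb : d.testBit 0
    · rw [hb] at h
      exact key h
    · rw [hb] at h
      have h' : (Nat.lor a (incD l (Nat.div d 2))).testBit e = true := h
      rw [testBit_lor, Bool.or_eq_true] at h'
      rcases h' with h' | h'
      · exact ⟨0, by simp, hb, by simpa using h'⟩
      · exact key h'

/-- `x ⊆ y` for masks -/
noncomputable def sb (x y : ℕ) : Bool := Nat.beq (Nat.land x y) x

theorem sb_spec {x y : ℕ} (h : sb x y = true) (i : ℕ) (hi : x.testBit i = true) :
    y.testBit i = true := by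
  have h1 : Nat.land x y = x := Nat.eq_of_beq_eq_true h
  rw [← h1, testBit_land, Bool.and_eq_true] at hi
  exact hi.2

noncomputable def vU (w I : ℕ) (l : List ℕ) : ℕ → Bool :=
  List.rec (motive := fun _ => ℕ → Bool) (fun _ => true)
    (fun i _ ih d => Bool.rec
      (fc (fun x => Bool.rec
          (Bool.rec false (Bool.rec (ih (Nat.div d 2))
            (Bool.rec false (ih (Nat.div d 2)) (sb x (Nat.shiftRight w 76))) (sg x)) (sb x w))
          false (Nat.beq x 0)) (Nat.land i I))
      (ih (Nat.div d 2)) (Nat.beq (Nat.mod d 2) 1)) l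

theorem vU_cons (w I a : ℕ) (l : List ℕ) (d : ℕ) : vU w I (a :: l) d = Bool.rec
      (fc (fun x => Bool.rec
          (Bool.rec false (Bool.rec (vU w I l (Nat.div d 2))
            (Bool.rec false (vU w I l (Nat.div d 2)) (sb x (Nat.shiftRight w 76))) (sg x))
              (sb x w))
          false (Nat.beq x 0)) (Nat.land a I))
      (vU w I l (Nat.div d 2)) (Nat.beq (Nat.mod d 2) 1) := rfl

theorem vU_spec (w I : ℕ) (l : List ℕ) (d : ℕ) (h : vU w I l d = true) (k : ℕ)
    (hk : k < l.length) (hd : d.testBit k = false) :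
    Nat.land (l.getD k 0) I ≠ 0 ∧ sb (Nat.land (l.getD k 0) I) w = true ∧
    (sg (Nat.land (l.getD k 0) I) = true →
      sb (Nat.land (l.getD k 0) I) (Nat.shiftRight w 76) = true) := by
  induction l generalizing d k with
  | nil => exact absurd hk (by simp)
  | cons a l ih =>
    rw [vU_cons, beq_mod] at h
    have key : vU w I l (Nat.div d 2) = true ∧ (d.testBit 0 = false →
        (Nat.land a I ≠ 0 ∧ sb (Nat.land a I) w = true ∧
        (sg (Nat.land a I) = true → sb (Nat.land a I) (Nat.shiftRight w 76) = true))) := by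
      cases hb : d.testBit 0
      · rw [hb] at h
        have h' : fc (fun x => (Bool.rec
          (Bool.rec false (Bool.rec (vU w I l (Nat.div d 2))
            (Bool.rec false (vU w I l (Nat.div d 2)) (sb x (Nat.shiftRight w 76))) (sg x))
              (sb x w))
          false (Nat.beq x 0) : Bool)) (Nat.land a I) = true := h
        rw [fc_eq] at h'
        generalize Nat.land a I = x at h' ⊢
        cases h0 : Nat.beq x 0
        · rw [h0] at h'
          have hne : x ≠ 0 := Nat.ne_of_beq_eq_false h0
          cases h1 : sb x w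
          · rw [h1] at h'; exact absurd h' Bool.false_ne_true
          · rw [h1] at h'
            cases h2 : sg x
            · rw [h2] at h'
              exact ⟨h', fun _ => ⟨hne, rfl, fun h3 => absurd h3 Bool.false_ne_true⟩⟩
            · rw [h2] at h'
              cases h3 : sb x (Nat.shiftRight w 76)
              · rw [h3] at h'; exact absurd h' Bool.false_ne_true
              · rw [h3] at h'
                exact ⟨h', fun _ => ⟨hne, rfl, fun _ => rfl⟩⟩
        · rw [h0] at h'; exact absurd h' Bool.false_ne_true
      · rw [hb] at h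
        exact ⟨h, fun h3 => absurd h3 (by simp)⟩
    cases k with
    | zero => exact key.2 hd
    | succ k =>
      have := ih (Nat.div d 2) key.1 k (by simpa using hk) (by rw [div_testBit]; exact hd)
      simpa using this

noncomputable def mb (x : ℕ) (qs : List ℕ) : Bool :=
  List.rec (motive := fun _ => Bool) false (fun q _ ih => Bool.rec ih true (Nat.beq x q)) qs

theorem mb_spec {x : ℕ} {qs : List ℕ} (h : mb x qs = true) : x ∈ qs := by
  induction qs with
  | nil => exact absurd h Bool.false_ne_true
  | cons q qs ih =>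
    have h1 : (Bool.rec (mb x qs) true (Nat.beq x q) : Bool) = true := h
    cases hb : Nat.beq x q
    · rw [hb] at h1; exact List.mem_cons_of_mem _ (ih h1)
    · rw [Nat.eq_of_beq_eq_true hb]; exact List.mem_cons_self

noncomputable def vG (qs : List ℕ) (I : ℕ) (l : List ℕ) : ℕ → Bool :=
  List.rec (motive := fun _ => ℕ → Bool) (fun _ => true)
    (fun i _ ih d => Bool.rec
      (fc (fun x => Bool.rec false (ih (Nat.div d 2)) (mb x qs)) (Nat.land i I))
      (ih (Nat.div d 2)) (Nat.beq (Nat.mod d 2) 1)) l

theorem vG_cons (qs : List ℕ) (I a : ℕ) (l : List ℕ) (d : ℕ) : vG qs I (a :: l) d = Bool.rec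
      (fc (fun x => Bool.rec false (vG qs I l (Nat.div d 2)) (mb x qs)) (Nat.land a I))
      (vG qs I l (Nat.div d 2)) (Nat.beq (Nat.mod d 2) 1) := rfl

theorem vG_spec (qs : List ℕ) (I : ℕ) (l : List ℕ) (d : ℕ) (h : vG qs I l d = true) (k : ℕ)
    (hk : k < l.length) (hd : d.testBit k = false) : Nat.land (l.getD k 0) I ∈ qs := by
  induction l generalizing d k with
  | nil => exact absurd hk (by simp)
  | cons a l ih =>
    rw [vG_cons, beq_mod] at h
    have key : vG qs I l (Nat.div d 2) = true ∧ (d.testBit 0 = false → Nat.land a I ∈ qs) := by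
      cases hb : d.testBit 0
      · rw [hb] at h
        have h' : fc (fun x => (Bool.rec false (vG qs I l (Nat.div d 2)) (mb x qs) : Bool))
          (Nat.land a I) = true := h
        rw [fc_eq] at h'
        cases h1 : mb (Nat.land a I) qs
        · rw [h1] at h'; exact absurd h' Bool.false_ne_true
        · rw [h1] at h'
          exact ⟨h', fun _ => mb_spec h1⟩
      · rw [hb] at h
        exact ⟨h, fun h3 => absurd h3 (by simp)⟩
    cases k with
    | zero => exact key.2 hd
    | succ k =>
      have := ih (Nat.div d 2) key.1 k (by simpa using hk) (by rw [div_testBit]; exact hd)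
      simpa using this

noncomputable def vU1 (D w : ℕ) : Bool :=
  Bool.rec false (fc (fun I => vU w I incL D) (incD incL D)) (Nat.beq (pop 28 D) 6)

noncomputable def vG1 (D : ℕ) (qs : List ℕ) : Bool :=
  Bool.rec false (fc (fun I => vG qs I incL D) (incD incL D)) (Nat.beq (pop 28 D) 6)

noncomputable def allU (TU : ℕ) (l : List ℕ) : ℕ → Bool :=
  List.rec (motive := fun _ => ℕ → Bool) (fun _ => true)
    (fun D _ ih j => Bool.rec false (ih (Nat.succ j))
      (fc (fun w => vU1 D w) (Nat.mod (Nat.shiftRight TU (Nat.mul 152 j))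
        5708990770823839524233143877797980545530986496))) l

theorem allU_spec (TU : ℕ) (l : List ℕ) (j : ℕ) (h : allU TU l j = true) (k : ℕ)
    (hk : k < l.length) : ∃ D, vU1 D (Nat.mod (Nat.shiftRight TU (Nat.mul 152 (j + k)))
        5708990770823839524233143877797980545530986496) = true := by
  induction l generalizing j k with
  | nil => exact absurd hk (by simp)
  | cons a l ih =>
    have h0 : (Bool.rec false (allU TU l (Nat.succ j))
      (fc (fun w => vU1 a w) (Nat.mod (Nat.shiftRight TU (Nat.mul 152 j))
        5708990770823839524233143877797980545530986496)) : Bool) = true := h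
    rw [fc_eq] at h0
    cases h1 : vU1 a (Nat.mod (Nat.shiftRight TU (Nat.mul 152 j))
        5708990770823839524233143877797980545530986496)
    · rw [h1] at h0; exact absurd h0 Bool.false_ne_true
    · rw [h1] at h0
      cases k with
      | zero => exact ⟨a, h1⟩
      | succ k =>
        have := ih (Nat.succ j) h0 k (by simpa using hk)
        rw [show Nat.succ j + k = j + (k + 1) by omega] at this
        exact this

/-- After the deletion of the edges in `T` some six vertices dominate. -/
def Good (T : Finset ℕ) : Prop := ∃ D : ℕ, pop 28 D = 6 ∧ ∀ v < 28, D.testBit v = false →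
  ∃ e, (Nat.land (incL.getD v 0) (incD incL D)).testBit e = true ∧ e ∉ T

theorem incL_len : incL.length = 28 := rfl

theorem vU1_spec {D w : ℕ} (h : vU1 D w = true) : SU Good w := by
  intro T hT
  unfold vU1 at h
  cases h1 : Nat.beq (pop 28 D) 6
  · rw [h1] at h; exact absurd h Bool.false_ne_true
  · rw [h1] at h
    have h2 : fc (fun I => vU w I incL D) (incD incL D) = true := h
    rw [fc_eq] at h2
    have h3 : ∃ v, v < 28 ∧ D.testBit v = false ∧
        ∀ e, (Nat.land (incL.getD v 0) (incD incL D)).testBit e = true → e ∈ T := by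
      by_contra hcon
      push Not at hcon
      exact hT ⟨D, Nat.eq_of_beq_eq_true h1, hcon⟩
    obtain ⟨v, hv, hD, he⟩ := h3
    obtain ⟨h4, h5, h6⟩ := vU_spec w _ incL D h2 v (by rw [incL_len]; exact hv) hD
    generalize Nat.land (incL.getD v 0) (incD incL D) = x at h4 h5 h6 he
    cases hs : sg x
    · right
      obtain ⟨i, j, hij, hi, hj⟩ := sg_false hs h4
      exact ⟨i, he i hi, j, he j hj, hij, sb_spec h5 i hi, sb_spec h5 j hj⟩
    · left
      obtain ⟨i, hi⟩ := Nat.exists_testBit_of_ne_zero h4
      exact ⟨i, he i hi, sb_spec h5 i hi, sb_spec (h6 hs) i hi⟩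

theorem vG1_spec {D : ℕ} {qs : List ℕ} (h : vG1 D qs = true) : SG Good qs := by
  intro T hT
  unfold vG1 at h
  cases h1 : Nat.beq (pop 28 D) 6
  · rw [h1] at h; exact absurd h Bool.false_ne_true
  · rw [h1] at h
    have h2 : fc (fun I => vG qs I incL D) (incD incL D) = true := h
    rw [fc_eq] at h2
    have h3 : ∃ v, v < 28 ∧ D.testBit v = false ∧
        ∀ e, (Nat.land (incL.getD v 0) (incD incL D)).testBit e = true → e ∈ T := by
      by_contra hcon
      push Not at hcon
      exact hT ⟨D, Nat.eq_of_beq_eq_true h1, hcon⟩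
    obtain ⟨v, hv, hD, he⟩ := h3
    exact ⟨_, vG_spec qs _ incL D h2 v (by rw [incL_len]; exact hv) hD, he⟩

theorem tabU : allU TU UD 0 = true := by decide +kernel

theorem tabG : tab.all vG1 = true := by decide +kernel

theorem lenU : UD.length = 512 := by decide +kernel

theorem hU : SUT Good TU := by
  intro d hd
  obtain ⟨D, hD⟩ := allU_spec TU UD 0 tabU d (by rw [lenU]; exact hd)
  rw [Nat.zero_add] at hD
  exact vU1_spec hD

theorem hG (i : ℕ) : SG Good (tab.get i) := by
  obtain ⟨D, hD⟩ := BT.all_get vG1 tab tabG i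
  exact vG1_spec hD

end Pool.Agent.H81.Bond
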